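import Pool.Agent.U515.WH.Tools

/-!
# The operators on `c₀(ℕ × ℤ)`
-/

set_option autoImplicit false

namespace Pool.Agent.U515.WH

open Filter Set
open scoped Topology ZeroAtInfty

/-- a very slowly increasing function -/
def H (n : ℕ) : ℕ := 1 + Nat.log 2 (Nat.log 2 n)

theorem H_mono : Monotone H := fun a b hab => by
  unfold H
  have := Nat.log_mono_right (b := 2) (Nat.log_mono_right (b := 2) hab)
  omega

theorem H_pos (n : ℕ) : 1 ≤ H n := by unfold H; omega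

theorem log_succ_le (n : ℕ) : Nat.log 2 (n + 1) ≤ Nat.log 2 n + 1 := by
  rcases Nat.eq_zero_or_pos n with rfl | hn
  · simp
  · have h1 : n < 2 ^ (Nat.log 2 n + 1) := Nat.lt_pow_succ_log_self (by norm_num) n
    have h2 : n + 1 < 2 ^ (Nat.log 2 n + 2) := by
      have : 2 ^ (Nat.log 2 n + 2) = 2 * 2 ^ (Nat.log 2 n + 1) := by ring
      omega
    have := Nat.log_lt_of_lt_pow (by omega) h2
    omega

theorem H_succ_le (n : ℕ) : H (n + 1) ≤ H n + 1 := by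
  unfold H
  have h1 : Nat.log 2 (Nat.log 2 (n + 1)) ≤ Nat.log 2 (Nat.log 2 n + 1) :=
    Nat.log_mono_right (log_succ_le n)
  have h2 := log_succ_le (Nat.log 2 n)
  omega

theorem H_le (n : ℕ) : H n ≤ n + 1 := by
  unfold H
  have h1 := Nat.log_le_self 2 (Nat.log 2 n)
  have h2 := Nat.log_le_self 2 n
  omega

theorem le_H (k : ℕ) {n : ℕ} (h : 2 ^ 2 ^ k ≤ n) : k ≤ H n := by
  have h1 := H_mono h
  have h2 : H (2 ^ 2 ^ k) = 1 + k := by
    unfold H
    rw [Nat.log_pow (by norm_num), Nat.log_pow (by norm_num)]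
  omega

/-- `h n = log (H n)` -/
noncomputable def hh (n : ℕ) : ℝ := Real.log (H n)

theorem exp_hh (n : ℕ) : Real.exp (hh n) = H n := by
  unfold hh
  rw [Real.exp_log]
  exact_mod_cast H_pos n

theorem hh_nonneg (n : ℕ) : 0 ≤ hh n := by
  unfold hh
  apply Real.log_nonneg
  exact_mod_cast H_pos n

theorem hh_mono : Monotone hh := fun a b hab => by
  unfold hh
  apply Real.log_le_log
  · exact_mod_cast H_pos a
  · exact_mod_cast H_mono hab

theorem hh_succ (n : ℕ) : hh (n + 1) ≤ hh n + 1 := by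
  have h1 : Real.exp (hh (n + 1)) ≤ Real.exp (hh n + 1) := by
    rw [Real.exp_add, exp_hh, exp_hh]
    have h2 : ((H (n + 1) : ℕ) : ℝ) ≤ H n + 1 := by exact_mod_cast H_succ_le n
    have h3 : (1 : ℝ) ≤ H n := by exact_mod_cast H_pos n
    have h4 : (2 : ℝ) ≤ Real.exp 1 := by linarith [Real.add_one_le_exp (1 : ℝ)]
    nlinarith
  exact Real.exp_le_exp.1 h1

theorem hh_near {a b : ℕ} (h1 : a ≤ b + 1) : hh a ≤ hh b + 1 :=
  (hh_mono h1).trans (hh_succ b)

/-- increasing numbers below one -/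
noncomputable def ss (m : ℕ) : ℝ := 1 - 1 / ((m : ℝ) + 1)

theorem ss_zero : ss 0 = 0 := by simp [ss]

theorem ss_nonneg (m : ℕ) : 0 ≤ ss m := by
  unfold ss
  have : 1 / ((m : ℝ) + 1) ≤ 1 := by
    rw [div_le_one (by positivity)]
    linarith [(Nat.cast_nonneg m : (0 : ℝ) ≤ m)]
  linarith

theorem ss_le_one (m : ℕ) : ss m ≤ 1 := by
  unfold ss
  have : 0 ≤ 1 / ((m : ℝ) + 1) := by positivity
  linarith

theorem ss_lt (m : ℕ) : ss m < ss (m + 1) := by
  unfold ss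
  have : 1 / (((m + 1 : ℕ) : ℝ) + 1) < 1 / ((m : ℝ) + 1) := by
    apply one_div_lt_one_div_of_lt (by positivity)
    push_cast
    linarith
  linarith

/-- the logarithm of the norm of the basis vector -/
noncomputable def φ (i : ℕ × ℤ) : ℝ :=
  (i.1 : ℝ) ^ 2 + ss i.1 * hh i.2.natAbs - (i.2.toNat : ℝ)

/-- the weights of the operator in the direction of the shift -/
noncomputable def wT (i : ℕ × ℤ) : ℝ := Real.exp (φ i - φ (i.1, i.2 + 1))

/-- the weights of the compact operator -/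
noncomputable def wS (i : ℕ × ℤ) : ℝ := Real.exp (φ i - φ (i.1 + 1, i.2))

theorem wT_le (i : ℕ × ℤ) : |wT i| ≤ Real.exp 2 := by
  unfold wT
  rw [abs_of_pos (Real.exp_pos _), Real.exp_le_exp]
  unfold φ
  simp only
  have h1 : hh i.2.natAbs ≤ hh (i.2 + 1).natAbs + 1 := hh_near (by omega)
  have h2 : (((i.2 + 1).toNat : ℕ) : ℝ) ≤ (i.2.toNat : ℝ) + 1 := by
    have : (i.2 + 1).toNat ≤ i.2.toNat + 1 := by omega
    exact_mod_cast this
  have h3 := ss_nonneg i.1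
  have h4 := ss_le_one i.1
  have h5 : ss i.1 * (hh i.2.natAbs - hh (i.2 + 1).natAbs) ≤ 1 := by
    have : ss i.1 * (hh i.2.natAbs - hh (i.2 + 1).natAbs) ≤ ss i.1 * 1 := by
      apply mul_le_mul_of_nonneg_left _ h3
      linarith
    linarith
  nlinarith

theorem wS_eq (i : ℕ × ℤ) : wS i =
    Real.exp (-(2 * (i.1 : ℝ) + 1) - (ss (i.1 + 1) - ss i.1) * hh i.2.natAbs) := by
  unfold wS φ
  congr 1
  simp only
  push_cast
  ring

theorem wS_le (i : ℕ × ℤ) : |wS i| ≤ 1 := by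
  rw [wS_eq, abs_of_pos (Real.exp_pos _), Real.exp_le_one_iff]
  have h1 := ss_lt i.1
  have h2 := hh_nonneg i.2.natAbs
  have h3 : 0 ≤ (ss (i.1 + 1) - ss i.1) * hh i.2.natAbs := mul_nonneg (by linarith) h2
  have : (0 : ℝ) ≤ i.1 := Nat.cast_nonneg _
  linarith

theorem wS_fin : ∀ ε > 0, {i | ε ≤ |wS i|}.Finite := by
  intro ε hε
  -- bound for the first coordinate
  obtain ⟨M, hM⟩ : ∃ M : ℕ, -Real.log ε ≤ M := exists_nat_ge _
  have hN : ∀ m : ℕ, ∃ N : ℕ, ∀ n : ℤ, N ≤ n.natAbs →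
      -Real.log ε < (ss (m + 1) - ss m) * hh n.natAbs := by
    intro m
    have hm := ss_lt m
    have hd : 0 < ss (m + 1) - ss m := by linarith
    obtain ⟨K, hK⟩ : ∃ K : ℕ, Real.exp (-Real.log ε / (ss (m + 1) - ss m)) < K :=
      exists_nat_gt _
    refine ⟨2 ^ 2 ^ K, fun n hn => ?_⟩
    have h1 : (K : ℝ) ≤ H n.natAbs := by exact_mod_cast le_H K hn
    rw [← exp_hh] at h1
    have h2 := Real.exp_lt_exp.1 (lt_of_lt_of_le hK h1)
    rw [div_lt_iff₀ hd] at h2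
    linarith
  choose N hN using hN
  have hfin : (⋃ m ∈ Finset.range M, ({m} : Set ℕ) ×ˢ Icc (-(N m : ℤ)) (N m)).Finite := by
    apply Set.Finite.biUnion (Finset.range M).finite_toSet
    intro m _
    exact (finite_singleton m).prod (finite_Icc _ _)
  apply hfin.subset
  rintro ⟨m, n⟩ hi
  simp only [mem_ofPred_eq] at hi
  rw [wS_eq, abs_of_pos (Real.exp_pos _), ← Real.log_le_iff_le_exp hε] at hi
  simp only at hi
  have h1 := ss_lt m
  have h2 := hh_nonneg n.natAbs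
  have h3 : 0 ≤ (ss (m + 1) - ss m) * hh n.natAbs := mul_nonneg (by linarith) h2
  have h4 : (0 : ℝ) ≤ m := Nat.cast_nonneg _
  have h5 : (m : ℝ) < M := by linarith
  have h6 : n.natAbs < N m := by
    by_contra h
    have := hN m n (not_lt.1 h)
    linarith
  simp only [mem_iUnion, mem_prod, mem_singleton_iff, mem_Icc, exists_prop]
  refine ⟨m, ?_, rfl, ?_⟩
  · rw [Finset.mem_range]
    exact_mod_cast h5
  · omega

/-- the direction of the operator -/
def σT (i : ℕ × ℤ) : ℕ × ℤ := (i.1, i.2 + 1)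

theorem σT_inj : Function.Injective σT := by
  rintro ⟨a, b⟩ ⟨c, d⟩ h
  simpa [σT] using h

/-- the direction of the compact operator -/
def σS (i : ℕ × ℤ) : ℕ × ℤ := (i.1 + 1, i.2)

theorem σS_inj : Function.Injective σS := by
  rintro ⟨a, b⟩ ⟨c, d⟩ h
  simpa [σS] using h

variable {𝕂 : Type*} [RCLike 𝕂]

/-- the operator -/
noncomputable def T (𝕂 : Type*) [RCLike 𝕂] : C₀(ℕ × ℤ, 𝕂) →L[𝕂] C₀(ℕ × ℤ, 𝕂) :=
  W wT (Real.exp 2) (Real.exp_pos _) wT_le σT σT_inj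

/-- the compact operator -/
noncomputable def S (𝕂 : Type*) [RCLike 𝕂] : C₀(ℕ × ℤ, 𝕂) →L[𝕂] C₀(ℕ × ℤ, 𝕂) :=
  W wS 1 one_pos wS_le σS σS_inj

theorem T_apply (x : C₀(ℕ × ℤ, 𝕂)) (i : ℕ × ℤ) :
    T 𝕂 x i = (wT i : 𝕂) * x (i.1, i.2 + 1) := rfl

theorem S_apply (x : C₀(ℕ × ℤ, 𝕂)) (i : ℕ × ℤ) :
    S 𝕂 x i = (wS i : 𝕂) * x (i.1 + 1, i.2) := rfl

theorem T_pow (k : ℕ) (x : C₀(ℕ × ℤ, 𝕂)) (i : ℕ × ℤ) :
    (T 𝕂 ^ k) x i = ((Real.exp (φ i - φ (i.1, i.2 + k)) : ℝ) : 𝕂) * x (i.1, i.2 + k) := by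
  induction k generalizing i with
  | zero => simp
  | succ k ih =>
    rw [pow_succ', mul_apply_eq_comp, T_apply, ih]
    rw [← mul_assoc, ← RCLike.ofReal_mul]
    have e : i.2 + 1 + (k : ℤ) = i.2 + ((k + 1 : ℕ) : ℤ) := by push_cast; ring
    simp only
    rw [e]
    congr 2
    unfold wT
    rw [← Real.exp_add]
    congr 1
    ring

theorem TS : (T 𝕂).comp (S 𝕂) = (S 𝕂).comp (T 𝕂) := by
  ext x i
  rw [ContinuousLinearMap.comp_apply, ContinuousLinearMap.comp_apply, T_apply, S_apply, S_apply,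
    T_apply, ← mul_assoc, ← mul_assoc, ← RCLike.ofReal_mul, ← RCLike.ofReal_mul]
  congr 2
  unfold wT wS
  rw [← Real.exp_add, ← Real.exp_add]
  congr 1
  simp only
  ring

theorem S_compact : IsCompactOperator (S 𝕂) :=
  W_compact wS 1 one_pos wS_le σS σS_inj wS_fin

theorem S_denseRange : DenseRange (S 𝕂) := by
  classical
  apply dense_fin.mono
  rintro _ ⟨y, rfl⟩
  refine ⟨mk0 (fun i => if i.1 = 0 then 0 else
    (((wS (i.1 - 1, i.2))⁻¹ : ℝ) : 𝕂) * y (i.1 - 1, i.2)) ?_, ?_⟩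
  · intro ε hε
    have h1 := y.hasFiniteSupport.image σS
    apply h1.subset
    rintro ⟨m, n⟩ hn
    simp only [mem_ofPred_eq, mem_image, Function.mem_support] at hn ⊢
    split_ifs at hn with h0
    · rw [norm_zero] at hn
      exact absurd hn (not_le.2 hε)
    · refine ⟨(m - 1, n), fun hy => ?_, ?_⟩
      · rw [hy, mul_zero, norm_zero] at hn
        exact absurd hn (not_le.2 hε)
      · simp only [σS, Prod.mk.injEq, and_true]
        omega
  · ext i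
    rw [S_apply, mk0_apply, if_neg (by simp), ofFin_apply]
    simp only [Nat.add_sub_cancel]
    have hw : wS i ≠ 0 := (Real.exp_pos _).ne'
    rw [← mul_assoc, ← RCLike.ofReal_mul]
    change ((wS i * (wS i)⁻¹ : ℝ) : 𝕂) * y i = y i
    rw [mul_inv_cancel₀ hw]
    simp

/-- `T` is hypercyclic: some orbit is norm dense. -/
def Hypercyclic (𝕂 : Type*) [NontriviallyNormedField 𝕂] {E : Type*} [NormedAddCommGroup E]
    [NormedSpace 𝕂 E] (T : E →L[𝕂] E) : Prop :=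
  ∃ x : E, Dense (range fun n : ℕ => (T ^ n) x)

/-- `T` is weakly hypercyclic: some orbit is dense for the weak topology. -/
def WeaklyHypercyclic (𝕂 : Type*) [NontriviallyNormedField 𝕂] {E : Type*}
    [NormedAddCommGroup E] [NormedSpace 𝕂 E] (T : E →L[𝕂] E) : Prop :=
  ∃ x : E, Dense (toWeakSpace 𝕂 E '' range fun n : ℕ => (T ^ n) x)

theorem T_not_hypercyclic : ¬ Hypercyclic 𝕂 (T 𝕂) := by
  rintro ⟨x, hx⟩
  -- a time at which the coordinate `(0, 0)` is large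
  obtain ⟨_, hxD, ⟨j, rfl⟩⟩ := Metric.dense_iff.1 hx ((2 : 𝕂) • ue 𝕂 ((0, 0) : ℕ × ℤ)) 1 one_pos
  have h1 : 1 < ‖(T 𝕂 ^ j) x (0, 0)‖ := by
    rw [Metric.mem_ball, dist_eq_norm] at hxD
    have h2 := apply_le ((T 𝕂 ^ j) x - (2 : 𝕂) • ue 𝕂 ((0, 0) : ℕ × ℤ)) (0, 0)
    rw [ZeroAtInftyContinuousMap.sub_apply, ZeroAtInftyContinuousMap.smul_apply, ue_apply,
      if_pos rfl, smul_eq_mul, mul_one] at h2
    have h3 : ‖(2 : 𝕂)‖ ≤ ‖(T 𝕂 ^ j) x (0, 0)‖ + ‖(T 𝕂 ^ j) x (0, 0) - 2‖ := by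
      calc ‖(2 : 𝕂)‖ = ‖(T 𝕂 ^ j) x (0, 0) - ((T 𝕂 ^ j) x (0, 0) - 2)‖ := by congr 1; ring
        _ ≤ _ := norm_sub_le _ _
    rw [RCLike.norm_two] at h3
    linarith
  -- afterwards the orbit stays outside the unit ball
  have h2 : ∀ k : ℕ, 1 < ‖(T 𝕂 ^ (k + j)) x‖ := by
    intro k
    refine lt_of_lt_of_le h1 (le_trans (le_of_eq ?_) (apply_le _ ((0, -(k : ℤ)) : ℕ × ℤ)))
    rw [pow_add, mul_apply_eq_comp, T_pow k]
    have e : φ (0, -(k : ℤ)) - φ ((0 : ℕ), -(k : ℤ) + k) = 0 := by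
      unfold φ
      simp [ss_zero]
    simp only
    rw [e, Real.exp_zero, neg_add_cancel]
    simp
  have h3 : Metric.ball (0 : C₀(ℕ × ℤ, 𝕂)) 1 ⊆ (fun n : ℕ => (T 𝕂 ^ n) x) '' Iio j := by
    have hfin : ((fun n : ℕ => (T 𝕂 ^ n) x) '' Iio j).Finite := (finite_Iio j).image _
    have h4 := hx.open_subset_closure_inter (Metric.isOpen_ball (x := (0 : C₀(ℕ × ℤ, 𝕂))) (ε := 1))
    refine h4.trans (closure_minimal ?_ hfin.isClosed)
    rintro _ ⟨hb, n, rfl⟩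
    refine ⟨n, ?_, rfl⟩
    rw [mem_Iio]
    by_contra hn
    have := h2 (n - j)
    rw [Nat.sub_add_cancel (not_lt.1 hn)] at this
    rw [Metric.mem_ball, dist_zero_right] at hb
    linarith
  have h5 : (Metric.ball (0 : C₀(ℕ × ℤ, 𝕂)) 1).Finite := ((finite_Iio j).image _).subset h3
  have h6 : Function.Injective (fun n : ℕ =>
      (((1 / ((n : ℝ) + 2) : ℝ) : 𝕂)) • ue 𝕂 ((0, 0) : ℕ × ℤ)) := by
    intro a b hab
    have h7 := congrArg (fun f : C₀(ℕ × ℤ, 𝕂) => f (0, 0)) hab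
    simp only [ZeroAtInftyContinuousMap.smul_apply, ue_apply, if_pos, smul_eq_mul, mul_one] at h7
    have h8 : (1 / ((a : ℝ) + 2) : ℝ) = 1 / ((b : ℝ) + 2) := by exact_mod_cast h7
    rw [one_div, one_div, inv_inj] at h8
    have : (a : ℝ) = b := by linarith
    exact_mod_cast this
  refine (infinite_range_of_injective h6) (h5.subset ?_)
  rintro _ ⟨n, rfl⟩
  rw [Metric.mem_ball, dist_zero_right]
  refine lt_of_le_of_lt (norm_le_of _ (C := 1 / ((n : ℝ) + 2)) (by positivity) ?_) ?_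
  · intro i
    rw [ZeroAtInftyContinuousMap.smul_apply, ue_apply, smul_eq_mul, norm_mul, RCLike.norm_ofReal,
      abs_of_pos (by positivity)]
    split_ifs
    · rw [norm_one, mul_one]
    · rw [norm_zero, mul_zero]; positivity
  · rw [div_lt_one (by positivity)]
    linarith [(Nat.cast_nonneg n : (0 : ℝ) ≤ n)]

end Pool.Agent.U515.WH
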