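import Pool.Agent.R299.WS.Tools

/-!
# Tools on `c₀(I)` for a discrete set `I`
-/

set_option autoImplicit false

namespace Pool.Agent.U515.WH

open Filter Set
open scoped Topology ZeroAtInfty

section c0

variable {𝕂 : Type*} [RCLike 𝕂] {I : Type*} [TopologicalSpace I] [DiscreteTopology I]

theorem cof (f : I → 𝕂) : Tendsto f (cocompact I) (𝓝 0) ↔ ∀ ε > 0, {n | ε ≤ ‖f n‖}.Finite := by
  rw [cocompact_eq_cofinite, tendsto_zero_iff_norm_tendsto_zero, Metric.tendsto_nhds]
  constructor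
  · intro h ε hε
    have := h ε hε
    rw [eventually_cofinite] at this
    apply this.subset
    intro n hn
    simp only [mem_ofPred_eq, dist_zero_right, norm_norm, not_lt] at hn ⊢
    exact hn
  · intro h ε hε
    rw [eventually_cofinite]
    apply (h ε hε).subset
    intro n hn
    simp only [mem_ofPred_eq, dist_zero_right, norm_norm, not_lt] at hn ⊢
    exact hn

/-- element of `c₀(I)` from a function -/
def mk0 (f : I → 𝕂) (hf : ∀ ε > 0, {n | ε ≤ ‖f n‖}.Finite) : C₀(I, 𝕂) where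
  toFun := f
  continuous_toFun := continuous_of_discreteTopology
  zero_at_infty' := (cof f).2 hf

@[simp]
theorem mk0_apply (f : I → 𝕂) (hf : ∀ ε > 0, {n | ε ≤ ‖f n‖}.Finite) (n : I) :
    mk0 f hf n = f n := rfl

theorem fin_ge (x : C₀(I, 𝕂)) {ε : ℝ} (hε : 0 < ε) : {n | ε ≤ ‖x n‖}.Finite :=
  (cof x).1 (zero_at_infty x) ε hε

theorem norm_le_of (x : C₀(I, 𝕂)) {C : ℝ} (hC : 0 ≤ C) (h : ∀ n, ‖x n‖ ≤ C) : ‖x‖ ≤ C := by
  rw [← ZeroAtInftyContinuousMap.norm_toBCF_eq_norm, BoundedContinuousFunction.norm_le hC]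
  exact h

theorem apply_le (x : C₀(I, 𝕂)) (n : I) : ‖x n‖ ≤ ‖x‖ := by
  rw [← ZeroAtInftyContinuousMap.norm_toBCF_eq_norm]
  exact x.toBCF.norm_coe_le_norm n

/-- coordinate functional -/
noncomputable def ev (𝕂 : Type*) [RCLike 𝕂] {I : Type*} [TopologicalSpace I]
    [DiscreteTopology I] (n : I) : C₀(I, 𝕂) →L[𝕂] 𝕂 :=
  LinearMap.mkContinuous ⟨⟨fun x => x n, fun _ _ => rfl⟩, fun _ _ => rfl⟩ 1 (by
    intro x
    rw [one_mul]
    exact apply_le x n)

theorem ev_apply (n : I) (x : C₀(I, 𝕂)) : ev 𝕂 n x = x n := rfl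

theorem sum_coe {ι : Type*} (s : Finset ι) (v : ι → C₀(I, 𝕂)) (p : I) :
    (∑ k ∈ s, v k) p = ∑ k ∈ s, v k p := by
  exact map_sum (ev 𝕂 p) v s

/-- `∑ |f (v k)| ≤ C ‖f‖` when every position carries total mass at most `C` -/
theorem sum_functional {ι : Type*} (s : Finset ι) (v : ι → C₀(I, 𝕂)) {C : ℝ} (hC : 0 ≤ C)
    (h : ∀ p, ∑ k ∈ s, ‖v k p‖ ≤ C) (f : C₀(I, 𝕂) →L[𝕂] 𝕂) :
    ∑ k ∈ s, ‖f (v k)‖ ≤ C * ‖f‖ := by
  -- choose unimodular scalars
  have h1 : ∀ k, ∃ θ : 𝕂, ‖θ‖ ≤ 1 ∧ θ * f (v k) = ((‖f (v k)‖ : ℝ) : 𝕂) := by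
    intro k
    rcases eq_or_ne (f (v k)) 0 with h0 | h0
    · exact ⟨0, by simp, by simp [h0]⟩
    · refine ⟨((‖f (v k)‖ : ℝ) : 𝕂) / f (v k), ?_, by field_simp⟩
      rw [norm_div, RCLike.norm_ofReal, abs_norm, div_self (norm_ne_zero_iff.2 h0)]
  choose θ hθ hθf using h1
  have h2 : f (∑ k ∈ s, θ k • v k) = ((∑ k ∈ s, ‖f (v k)‖ : ℝ) : 𝕂) := by
    rw [map_sum]
    push_cast
    apply Finset.sum_congr rfl
    intro k _
    rw [map_smul, smul_eq_mul, hθf]
  have h3 : ‖∑ k ∈ s, θ k • v k‖ ≤ C := by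
    apply norm_le_of _ hC
    intro p
    have e : (∑ k ∈ s, θ k • v k) p = ∑ k ∈ s, θ k * v k p := by
      rw [sum_coe]
      rfl
    rw [e]
    refine (norm_sum_le _ _).trans (le_trans (Finset.sum_le_sum fun k _ => ?_) (h p))
    rw [norm_mul]
    calc ‖θ k‖ * ‖v k p‖ ≤ 1 * ‖v k p‖ := by gcongr; exact hθ k
      _ = ‖v k p‖ := one_mul _
  have h4 : 0 ≤ ∑ k ∈ s, ‖f (v k)‖ := Finset.sum_nonneg fun _ _ => norm_nonneg _
  calc ∑ k ∈ s, ‖f (v k)‖ = ‖f (∑ k ∈ s, θ k • v k)‖ := by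
        rw [h2, RCLike.norm_ofReal, abs_of_nonneg h4]
    _ ≤ ‖f‖ * ‖∑ k ∈ s, θ k • v k‖ := f.le_opNorm _
    _ ≤ ‖f‖ * C := by gcongr
    _ = C * ‖f‖ := mul_comm _ _

/-- unit vector -/
noncomputable def ue (𝕂 : Type*) [RCLike 𝕂] {I : Type*} [TopologicalSpace I]
    [DiscreteTopology I] [DecidableEq I] (n : I) : C₀(I, 𝕂) :=
  mk0 (fun p => if p = n then 1 else 0) (by
    intro ε hε
    apply (finite_singleton n).subset
    intro p hp
    simp only [mem_ofPred_eq] at hp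
    by_contra h
    rw [if_neg (by simpa using h), norm_zero] at hp
    exact absurd hp (not_le.2 hε))

theorem ue_apply [DecidableEq I] (n p : I) : ue 𝕂 n p = if p = n then 1 else 0 := rfl

/-- the operator `(W f)(i) = w i * f (σ i)` as a linear map -/
noncomputable def Wlin (w : I → ℝ) (C : ℝ) (hC : 0 < C) (hw : ∀ i, |w i| ≤ C) (σ : I → I)
    (hσ : Function.Injective σ) : C₀(I, 𝕂) →ₗ[𝕂] C₀(I, 𝕂) where
  toFun x := mk0 (fun n => (w n : 𝕂) * x (σ n)) (by
    intro ε hε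
    have h1 := (fin_ge x (div_pos hε hC)).preimage (f := σ) (fun a _ b _ h => hσ h)
    apply h1.subset
    intro n hn
    simp only [mem_ofPred_eq, mem_preimage] at hn ⊢
    rw [norm_mul, RCLike.norm_ofReal] at hn
    rw [div_le_iff₀ hC]
    calc ε ≤ |w n| * ‖x (σ n)‖ := hn
      _ ≤ C * ‖x (σ n)‖ := by
          gcongr
          exact hw n
      _ = ‖x (σ n)‖ * C := mul_comm _ _)
  map_add' x y := by
    ext n
    simp [mul_add]
  map_smul' c x := by
    ext n
    simp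
    ring

/-- the operator `(W f)(i) = w i * f (σ i)` -/
noncomputable def W (w : I → ℝ) (C : ℝ) (hC : 0 < C) (hw : ∀ i, |w i| ≤ C) (σ : I → I)
    (hσ : Function.Injective σ) : C₀(I, 𝕂) →L[𝕂] C₀(I, 𝕂) :=
  (Wlin w C hC hw σ hσ).mkContinuous C (by
    intro x
    apply norm_le_of _ (by positivity)
    intro n
    change ‖(w n : 𝕂) * x (σ n)‖ ≤ C * ‖x‖
    rw [norm_mul, RCLike.norm_ofReal]
    have h1 := apply_le x (σ n)
    have h2 := hw n
    gcongr)

theorem W_apply (w : I → ℝ) (C : ℝ) (hC : 0 < C) (hw : ∀ i, |w i| ≤ C) (σ : I → I)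
    (hσ : Function.Injective σ) (x : C₀(I, 𝕂)) (n : I) :
    W w C hC hw σ hσ x n = (w n : 𝕂) * x (σ n) := rfl

theorem W_compact [DecidableEq I] (w : I → ℝ) (C : ℝ) (hC : 0 < C) (hw : ∀ i, |w i| ≤ C)
    (σ : I → I) (hσ : Function.Injective σ) (h0 : ∀ ε > 0, {i | ε ≤ |w i|}.Finite) :
    IsCompactOperator (W w C hC hw σ hσ : C₀(I, 𝕂) →L[𝕂] C₀(I, 𝕂)) := by
  classical
  -- finite rank approximations
  set F : Finset I → (C₀(I, 𝕂) →L[𝕂] C₀(I, 𝕂)) := fun s =>
    ∑ n ∈ s, ((w n : 𝕂) • ev 𝕂 (σ n)).smulRight (ue 𝕂 n) with hF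
  have hFc : ∀ N, IsCompactOperator (F N) := by
    intro N
    have h1 : ∀ n : I, IsCompactOperator
        (((w n : 𝕂) • ev 𝕂 (σ n)).smulRight (ue 𝕂 n)) := by
      intro n
      have h2 : IsCompactOperator ((w n : 𝕂) • ev 𝕂 (σ n) : C₀(I, 𝕂) →L[𝕂] 𝕂) :=
        isCompactOperator_of_locallyCompactSpace_dom _
      exact h2.clm_comp ((ContinuousLinearMap.id 𝕂 𝕂).smulRight (ue 𝕂 n))
    simp only [hF]
    induction N using Finset.cons_induction with
    | empty =>
      rw [Finset.sum_empty]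
      exact isCompactOperator_zero
    | cons a s ha ih =>
      rw [Finset.sum_cons]
      exact (h1 a).add ih
  have hFa : ∀ N x (p : I), F N x p = if p ∈ N then (w p : 𝕂) * x (σ p) else 0 := by
    intro N x p
    simp only [hF]
    rw [sum_apply, sum_coe]
    simp only [ContinuousLinearMap.smulRight_apply, smul_apply, ev_apply,
      smul_eq_mul, ZeroAtInftyContinuousMap.smul_apply, ue_apply, mul_ite, mul_one, mul_zero]
    rw [Finset.sum_ite_eq]
  set G : ℕ → Finset I := fun k => (h0 (1 / ((k : ℝ) + 1)) (by positivity)).toFinset with hG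
  have hlim0 : Tendsto (fun N => ‖F (G N) - W w C hC hw σ hσ‖) atTop (𝓝 0) := by
    have h5 : ∀ N : ℕ, ‖F (G N) - W w C hC hw σ hσ‖ ≤ 1 / ((N : ℝ) + 1) := by
      intro N
      apply ContinuousLinearMap.opNorm_le_bound _ (by positivity)
      intro x
      apply norm_le_of _ (by positivity)
      intro p
      rw [sub_apply, ZeroAtInftyContinuousMap.sub_apply, hFa, W_apply]
      split_ifs with hp
      · rw [sub_self, norm_zero]
        positivity
      · rw [zero_sub, norm_neg, norm_mul, RCLike.norm_ofReal]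
        have h1 : |w p| ≤ 1 / ((N : ℝ) + 1) := by
          simp only [hG, Set.Finite.mem_toFinset, mem_ofPred_eq, not_le] at hp
          exact hp.le
        have h3 := apply_le x (σ p)
        gcongr
    exact squeeze_zero (fun N => ContinuousLinearMap.opNorm_nonneg _) h5
      tendsto_one_div_add_atTop_nhds_zero_nat
  have hlim : Tendsto (fun N => F (G N)) atTop (𝓝 (W w C hC hw σ hσ)) :=
    (tendsto_iff_norm_sub_tendsto_zero (E := C₀(I, 𝕂) →L[𝕂] C₀(I, 𝕂))).2 hlim0
  exact isCompactOperator_of_tendsto hlim (Eventually.of_forall fun N => hFc (G N))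

/-- the vector with finite support given by a function with finite support -/
noncomputable def ofFin (y : I →₀ 𝕂) : C₀(I, 𝕂) := mk0 y (by
  intro ε hε
  apply y.hasFiniteSupport.subset
  intro p hp
  simp only [mem_ofPred_eq, Function.mem_support] at hp ⊢
  intro h0
  rw [h0, norm_zero] at hp
  exact absurd hp (not_le.2 hε))

theorem ofFin_apply (y : I →₀ 𝕂) (i : I) : ofFin y i = y i := rfl

/-- finitely supported vectors are dense -/
theorem dense_fin : Dense (range (ofFin : (I →₀ 𝕂) → C₀(I, 𝕂))) := by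
  intro x
  rw [Metric.mem_closure_iff]
  intro ε hε
  classical
  refine ⟨ofFin (Finsupp.onFinset (fin_ge x (half_pos hε)).toFinset
    (fun n => if ε / 2 ≤ ‖x n‖ then x n else 0) ?_), mem_range_self _, ?_⟩
  · intro n hn
    rw [Set.Finite.mem_toFinset]
    by_contra h
    simp only [mem_ofPred_eq] at h
    rw [if_neg h] at hn
    exact hn rfl
  · rw [dist_eq_norm]
    refine lt_of_le_of_lt (norm_le_of _ (half_pos hε).le ?_) (half_lt_self hε)
    intro n
    rw [ZeroAtInftyContinuousMap.sub_apply, ofFin_apply, Finsupp.onFinset_apply]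
    split_ifs with h
    · rw [sub_self, norm_zero]; positivity
    · rw [sub_zero]; exact (not_le.1 h).le

/-- a countable set of scalars containing zero -/
noncomputable def dd (𝕂 : Type*) [RCLike 𝕂] : ℕ → 𝕂
  | 0 => 0
  | i + 1 => TopologicalSpace.denseSeq 𝕂 i

/-- vectors with finite support and values in a countable set -/
noncomputable def cc (𝕂 : Type*) [RCLike 𝕂] {I : Type*} (φ : I →₀ ℕ) : I →₀ 𝕂 :=
  φ.mapRange (dd 𝕂) rfl

theorem cc_dense : Dense (range (fun φ : I →₀ ℕ => (ofFin (cc 𝕂 φ) : C₀(I, 𝕂)))) := by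
  classical
  intro y
  rw [Metric.mem_closure_iff]
  intro ε hε
  have h1 : ∀ p, ∃ i, dist (y p) (TopologicalSpace.denseSeq 𝕂 i) < ε / 2 := fun p =>
    (TopologicalSpace.denseRange_denseSeq 𝕂).exists_dist_lt (y p) (half_pos hε)
  choose i hi using h1
  set S := (fin_ge y (half_pos hε)).toFinset with hS
  refine ⟨_, mem_range_self (Finsupp.onFinset S (fun p => if p ∈ S then i p + 1 else 0) ?_), ?_⟩
  · intro p hp
    by_contra h
    rw [if_neg h] at hp
    exact hp rfl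
  · rw [dist_eq_norm]
    refine lt_of_le_of_lt (norm_le_of _ (half_pos hε).le ?_) (half_lt_self hε)
    intro p
    rw [ZeroAtInftyContinuousMap.sub_apply]
    change ‖y p - dd 𝕂 (if p ∈ S then i p + 1 else 0)‖ ≤ ε / 2
    split_ifs with hp
    · have := hi p
      rw [dist_eq_norm] at this
      exact this.le
    · rw [hS, Set.Finite.mem_toFinset] at hp
      simp only [mem_ofPred_eq, not_le] at hp
      rw [dd, sub_zero]
      exact hp.le

end c0

end Pool.Agent.U515.WH
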