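import Pool.Agent.U515.WH.Op

/-!
# The weakly hypercyclic vector
-/

set_option autoImplicit false

namespace Pool.Agent.U515.WH

open Filter Set
open scoped Topology ZeroAtInfty

variable {𝕂 : Type*} [RCLike 𝕂]

/-- the vector `y` shifted by `N` -/
noncomputable def VV (N : ℤ) (y : (ℕ × ℤ) →₀ 𝕂) : C₀(ℕ × ℤ, 𝕂) :=
  mk0 (fun i => ((Real.exp (φ i - φ (i.1, i.2 - N)) : ℝ) : 𝕂) * y (i.1, i.2 - N)) (by
    intro ε hε
    have h1 := y.hasFiniteSupport.preimage (f := fun i : ℕ × ℤ => (i.1, i.2 - N))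
      (fun a _ b _ h => by
        simp only [Prod.mk.injEq, sub_left_inj] at h
        exact Prod.ext h.1 h.2)
    apply h1.subset
    intro i hi
    simp only [mem_ofPred_eq, mem_preimage, Function.mem_support] at hi ⊢
    intro h0
    rw [h0, mul_zero, norm_zero] at hi
    exact absurd hi (not_le.2 hε))

theorem VV_apply (N : ℤ) (y : (ℕ × ℤ) →₀ 𝕂) (i : ℕ × ℤ) :
    VV N y i = ((Real.exp (φ i - φ (i.1, i.2 - N)) : ℝ) : 𝕂) * y (i.1, i.2 - N) := rfl

theorem VV_zero (y : (ℕ × ℤ) →₀ 𝕂) : VV 0 y = ofFin y := by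
  ext i
  rw [VV_apply, ofFin_apply]
  simp

theorem T_VV (n : ℕ) (N : ℤ) (y : (ℕ × ℤ) →₀ 𝕂) : (T 𝕂 ^ n) (VV N y) = VV (N - n) y := by
  ext i
  rw [T_pow, VV_apply, VV_apply, ← mul_assoc, ← RCLike.ofReal_mul, ← Real.exp_add]
  have e : i.2 + (n : ℤ) - N = i.2 - (N - n) := by ring
  simp only
  rw [e]
  congr 3
  ring

/-- conditions on the sequence of targets -/
structure Good (Y : ℕ → ((ℕ × ℤ) →₀ 𝕂)) : Prop where
  supp : ∀ r i, Y r i ≠ 0 → i.2.natAbs ≤ r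
  size : ∀ r i, Real.exp (i.2.natAbs : ℝ) * ‖Y r i‖ ≤ (r : ℝ) + 1

variable {Y : ℕ → ((ℕ × ℤ) →₀ 𝕂)}

theorem boundA (hY : Good Y) (r N : ℕ) (i : ℕ × ℤ) :
    ‖VV (-(N : ℤ)) (Y r) i‖ ≤ ((r : ℝ) + 1) * H (r + N) := by
  rw [VV_apply, norm_mul, RCLike.norm_ofReal, abs_of_pos (Real.exp_pos _)]
  rcases eq_or_ne (Y r (i.1, i.2 - -(N : ℤ))) 0 with h0 | h0
  · rw [h0, norm_zero, mul_zero]
    positivity
  · have h1 := hY.supp r _ h0
    have h2 := hY.size r (i.1, i.2 - -(N : ℤ))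
    set l := i.2 - -(N : ℤ) with hl
    simp only at h1 h2
    have h3 : φ i - φ (i.1, l) ≤ hh (r + N) + (l.natAbs : ℝ) := by
      unfold φ
      simp only
      have h4 : hh i.2.natAbs ≤ hh (r + N) := hh_mono (by omega)
      have h5 := hh_nonneg l.natAbs
      have h6 := ss_nonneg i.1
      have h7 := ss_le_one i.1
      have h8 := hh_nonneg (r + N)
      have h9 : (l.toNat : ℝ) ≤ l.natAbs := by
        have : l.toNat ≤ l.natAbs := by omega
        exact_mod_cast this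
      have h10 : (0 : ℝ) ≤ i.2.toNat := Nat.cast_nonneg _
      have h11 : ss i.1 * hh i.2.natAbs ≤ 1 * hh (r + N) := by
        have := hh_nonneg i.2.natAbs
        gcongr
      have h12 : 0 ≤ ss i.1 * hh l.natAbs := by positivity
      linarith
    calc Real.exp (φ i - φ (i.1, l)) * ‖Y r (i.1, l)‖
        ≤ Real.exp (hh (r + N) + (l.natAbs : ℝ)) * ‖Y r (i.1, l)‖ := by
          gcongr
      _ = (Real.exp (l.natAbs : ℝ) * ‖Y r (i.1, l)‖) * H (r + N) := by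
          rw [Real.exp_add, exp_hh]
          ring
      _ ≤ ((r : ℝ) + 1) * H (r + N) := by gcongr

theorem numB (k N : ℕ) (hN : 3 * 4 ^ k ≤ N) :
    ((k : ℝ) + 1) * ((k : ℝ) + N + 1) * Real.exp ((k : ℝ) - N) ≤ (1 / 2) ^ k := by
  have h1 : (9 : ℝ) * k + 3 ≤ N := by
    have : 9 * k + 3 ≤ N := by
      have h2 : 1 + k * 3 ≤ 4 ^ k := by
        have := one_add_mul_le_pow (a := (3 : ℤ)) (by norm_num) k
        zify
        norm_num at this
        linarith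
      omega
    exact_mod_cast this
  have h2 : (k : ℝ) + 1 ≤ Real.exp k := Real.add_one_le_exp _
  have h3 : (k : ℝ) + N + 1 ≤ 2 * Real.exp (((k : ℝ) + N) / 2) := by
    have := Real.add_one_le_exp (((k : ℝ) + N) / 2)
    linarith
  have h4 : Real.exp (-2) ≤ 1 / 2 := by
    rw [Real.exp_neg, one_div]
    apply inv_anti₀ (by norm_num)
    linarith [Real.add_one_le_exp (2 : ℝ)]
  have h5 : 2 * Real.exp (-(3 / 2)) ≤ 1 := by
    rw [Real.exp_neg]
    have h6 : 2 ≤ Real.exp (3 / 2) := by linarith [Real.add_one_le_exp (3 / 2 : ℝ)]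
    rw [← div_eq_mul_inv, div_le_one (Real.exp_pos _)]
    exact h6
  calc ((k : ℝ) + 1) * ((k : ℝ) + N + 1) * Real.exp ((k : ℝ) - N)
      ≤ Real.exp k * (2 * Real.exp (((k : ℝ) + N) / 2)) * Real.exp ((k : ℝ) - N) := by
        have : 0 < Real.exp ((k : ℝ) - N) := Real.exp_pos _
        gcongr
    _ = 2 * Real.exp ((5 * (k : ℝ) - N) / 2) := by
        have : (5 * (k : ℝ) - N) / 2 = k + ((k : ℝ) + N) / 2 + ((k : ℝ) - N) := by ring
        rw [this, Real.exp_add, Real.exp_add]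
        ring
    _ ≤ 2 * Real.exp (k * (-2) + -(3 / 2)) := by
        have : (5 * (k : ℝ) - N) / 2 ≤ k * (-2) + -(3 / 2) := by linarith
        gcongr
    _ = (2 * Real.exp (-(3 / 2))) * Real.exp (-2) ^ k := by
        rw [Real.exp_add, Real.exp_nat_mul]
        ring
    _ ≤ 1 * (1 / 2) ^ k := by
        have := Real.exp_pos (-2 : ℝ)
        gcongr
    _ = (1 / 2) ^ k := one_mul _

theorem boundB (hY : Good Y) (r k N : ℕ) (hr : r ≤ k) (hN : 3 * 4 ^ k ≤ N) (i : ℕ × ℤ) :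
    ‖VV (N : ℤ) (Y r) i‖ ≤ (1 / 2) ^ k := by
  rw [VV_apply, norm_mul, RCLike.norm_ofReal, abs_of_pos (Real.exp_pos _)]
  rcases eq_or_ne (Y r (i.1, i.2 - (N : ℤ))) 0 with h0 | h0
  · rw [h0, norm_zero, mul_zero]
    positivity
  · have h1 := hY.supp r _ h0
    have h2 := hY.size r (i.1, i.2 - (N : ℤ))
    set l := i.2 - (N : ℤ) with hl
    simp only at h1 h2
    have hrk : (r : ℝ) ≤ k := by exact_mod_cast hr
    have h3 : φ i - φ (i.1, l) ≤ hh (k + N) + ((k : ℝ) - N) + (l.natAbs : ℝ) := by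
      unfold φ
      simp only
      have h4 : hh i.2.natAbs ≤ hh (k + N) := hh_mono (by omega)
      have h5 := hh_nonneg l.natAbs
      have h6 := ss_nonneg i.1
      have h7 := ss_le_one i.1
      have h8 := hh_nonneg (k + N)
      have h9 : (l.toNat : ℝ) ≤ l.natAbs := by
        have : l.toNat ≤ l.natAbs := by omega
        exact_mod_cast this
      have h10 : (N : ℝ) ≤ i.2.toNat + k := by
        have : N ≤ i.2.toNat + k := by omega
        exact_mod_cast this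
      have h11 : ss i.1 * hh i.2.natAbs ≤ 1 * hh (k + N) := by
        have := hh_nonneg i.2.natAbs
        gcongr
      have h12 : 0 ≤ ss i.1 * hh l.natAbs := by positivity
      linarith
    have h4 : ((H (k + N) : ℕ) : ℝ) ≤ (k : ℝ) + N + 1 := by exact_mod_cast H_le (k + N)
    calc Real.exp (φ i - φ (i.1, l)) * ‖Y r (i.1, l)‖
        ≤ Real.exp (hh (k + N) + ((k : ℝ) - N) + (l.natAbs : ℝ)) * ‖Y r (i.1, l)‖ := by
          gcongr
      _ = (Real.exp (l.natAbs : ℝ) * ‖Y r (i.1, l)‖) * H (k + N) * Real.exp ((k : ℝ) - N) := by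
          rw [Real.exp_add, Real.exp_add, exp_hh]
          ring
      _ ≤ ((r : ℝ) + 1) * ((k : ℝ) + N + 1) * Real.exp ((k : ℝ) - N) := by gcongr
      _ ≤ ((k : ℝ) + 1) * ((k : ℝ) + N + 1) * Real.exp ((k : ℝ) - N) := by gcongr
      _ ≤ (1 / 2) ^ k := numB k N hN

/-- times -/
def nn (j : ℕ) : ℕ := 4 ^ (j + 1)

/-- the block of the time with index `j` -/
def rr (j : ℕ) : ℕ := Nat.log 2 (j + 1)

theorem rr_le (j : ℕ) : rr j ≤ j := by
  unfold rr
  have := Nat.log_lt_self 2 (x := j + 1) (by omega)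
  omega

theorem rr_mono : Monotone rr := fun a b hab => Nat.log_mono_right (by omega)

theorem nn_gap {a b : ℕ} (h : a < b) : nn a + 3 * 4 ^ b ≤ nn b := by
  unfold nn
  have h1 : 4 ^ (a + 1) ≤ 4 ^ b := Nat.pow_le_pow_right (by norm_num) h
  have h2 : 4 ^ (b + 1) = 4 * 4 ^ b := by ring
  omega

theorem lt_four_pow (b : ℕ) : b < 4 ^ b := Nat.lt_pow_self (by norm_num)

/-- separation of the supports -/
theorem sep {j k j' k' : ℕ} (hk : k < j) (hk' : k' < j') {p : ℤ}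
    (h1 : (p - ((nn k : ℤ) - nn j)).natAbs ≤ k) (h2 : (p - ((nn k' : ℤ) - nn j')).natAbs ≤ k') :
    j = j' ∧ k = k' := by
  have key : ∀ {j k j' k' : ℕ}, k < j → k' < j' →
      (p - ((nn k : ℤ) - nn j)).natAbs ≤ k → (p - ((nn k' : ℤ) - nn j')).natAbs ≤ k' →
      ¬ j < j' := by
    intro j k j' k' hk hk' h1 h2 h
    have a1 := nn_gap hk'
    have a2 := nn_gap h
    have a3 := lt_four_pow j'
    have a4 : nn j ≤ 4 ^ j' := by
      unfold nn
      exact Nat.pow_le_pow_right (by norm_num) h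
    omega
  have hj : j = j' := by
    rcases lt_trichotomy j j' with h | h | h
    · exact absurd h (key hk hk' h1 h2)
    · exact h
    · exact absurd h (key hk' hk h2 h1)
  subst hj
  refine ⟨rfl, ?_⟩
  rcases lt_trichotomy k k' with h | h | h
  · have a1 := nn_gap h
    have a3 := lt_four_pow k'
    omega
  · exact h
  · have a1 := nn_gap h
    have a3 := lt_four_pow k
    omega

/-- the vector -/
noncomputable def xx (Y : ℕ → ((ℕ × ℤ) →₀ 𝕂)) : C₀(ℕ × ℤ, 𝕂) := ∑' k, VV (nn k : ℤ) (Y (rr k))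

theorem term_le (hY : Good Y) (k : ℕ) : ‖VV (nn k : ℤ) (Y (rr k))‖ ≤ (1 / 2) ^ k := by
  apply norm_le_of _ (by positivity)
  apply boundB hY _ k _ (rr_le k)
  unfold nn
  have : 4 ^ (k + 1) = 4 * 4 ^ k := by ring
  omega

theorem summable_terms (hY : Good Y) : Summable fun k => VV (nn k : ℤ) (Y (rr k)) :=
  Summable.of_norm_bounded (g := fun k : ℕ => (1 / 2 : ℝ) ^ k) summable_geometric_two
    (term_le hY)

/-- the part of the error with the earlier terms -/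
noncomputable def uu (Y : ℕ → ((ℕ × ℤ) →₀ 𝕂)) (j : ℕ) : C₀(ℕ × ℤ, 𝕂) :=
  ∑ k ∈ Finset.range j, VV ((nn k : ℤ) - nn j) (Y (rr k))

theorem err (hY : Good Y) (j : ℕ) :
    ‖(T 𝕂 ^ (nn j)) (xx Y) - ofFin (Y (rr j)) - uu Y j‖ ≤ (1 / 2) ^ j := by
  have h1 : (T 𝕂 ^ (nn j)) (xx Y) = ∑' k, VV ((nn k : ℤ) - nn j) (Y (rr k)) := by
    unfold xx
    rw [ContinuousLinearMap.map_tsum _ (summable_terms hY)]
    exact tsum_congr fun k => T_VV _ _ _
  have hs : Summable fun k => VV ((nn k : ℤ) - nn j) (Y (rr k)) := by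
    have := (T 𝕂 ^ (nn j)).summable (summable_terms hY)
    refine this.congr fun k => ?_
    exact (T_VV _ _ _)
  have h2 := hs.sum_add_tsum_nat_add (j + 1)
  rw [Finset.sum_range_succ, sub_self, VV_zero] at h2
  have h3 : (T 𝕂 ^ (nn j)) (xx Y) - ofFin (Y (rr j)) - uu Y j =
      ∑' i, VV ((nn (i + (j + 1)) : ℤ) - nn j) (Y (rr (i + (j + 1)))) := by
    rw [h1, ← h2]
    unfold uu
    abel
  rw [h3]
  apply tsum_of_norm_bounded (hasSum_geometric_two' ((1 / 2 : ℝ) ^ j))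
  intro i
  have h4 : (1 / 2 : ℝ) ^ j / 2 / 2 ^ i = (1 / 2) ^ (i + (j + 1)) := by
    rw [pow_add, pow_add, pow_one, one_div, inv_pow, inv_pow]
    field_simp
  rw [h4]
  apply norm_le_of _ (by positivity)
  have h5 := nn_gap (a := j) (b := i + (j + 1)) (by omega)
  have h6 : ((nn (i + (j + 1)) : ℤ) - nn j) = ((nn (i + (j + 1)) - nn j : ℕ) : ℤ) := by omega
  rw [h6]
  exact boundB hY _ _ _ (rr_le _) (by omega)

/-- the constant of the block -/
def CC (r : ℕ) : ℝ := ((r : ℝ) + 1) * ((r : ℝ) + 4)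

theorem H_bound {r j : ℕ} (hj : j + 1 < 2 ^ (r + 1)) : H (r + nn j) ≤ r + 4 := by
  have h1 : H (2 ^ 2 ^ (r + 3)) = r + 4 := by
    unfold H
    rw [Nat.log_pow (by norm_num), Nat.log_pow (by norm_num)]
    ring
  rw [← h1]
  apply H_mono
  have h2 : nn j ≤ 2 ^ 2 ^ (r + 2) := by
    unfold nn
    rw [show (4 : ℕ) = 2 ^ 2 by norm_num, ← pow_mul]
    apply Nat.pow_le_pow_right (by norm_num)
    have : 2 ^ (r + 2) = 2 * 2 ^ (r + 1) := by ring
    omega
  have h3 : r ≤ 2 ^ 2 ^ (r + 2) := by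
    have a1 : r + 2 < 2 ^ (r + 2) := Nat.lt_pow_self (by norm_num)
    have a2 : 2 ^ (r + 2) < 2 ^ 2 ^ (r + 2) := Nat.lt_pow_self (by norm_num)
    omega
  have h4 : 2 ^ 2 ^ (r + 3) = 2 ^ 2 ^ (r + 2) * 2 ^ 2 ^ (r + 2) := by
    rw [← pow_add]
    congr 1
    ring
  have h5 : 2 ≤ 2 ^ 2 ^ (r + 2) := by
    calc 2 = 2 ^ 1 := by norm_num
      _ ≤ 2 ^ 2 ^ (r + 2) := Nat.pow_le_pow_right (by norm_num) Nat.one_le_two_pow
  rw [h4]
  nlinarith

theorem sum_uu (hY : Good Y) (r : ℕ) (f : C₀(ℕ × ℤ, 𝕂) →L[𝕂] 𝕂) :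
    ∑ j ∈ Finset.Ico (2 ^ r - 1) (2 ^ (r + 1) - 1), ‖f (uu Y j)‖ ≤ CC r * ‖f‖ := by
  classical
  set B := Finset.Ico (2 ^ r - 1) (2 ^ (r + 1) - 1) with hB
  have hC : 0 ≤ CC r := by unfold CC; positivity
  have h1 : ∑ q ∈ B.sigma (fun j => Finset.range j),
      ‖f (VV ((nn q.2 : ℤ) - nn q.1) (Y (rr q.2)))‖ ≤ CC r * ‖f‖ := by
    apply sum_functional _ (fun q : (_ : ℕ) × ℕ => VV ((nn q.2 : ℤ) - nn q.1) (Y (rr q.2))) hC
    intro i
    by_cases h : ∃ q ∈ B.sigma (fun j => Finset.range j),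
        VV ((nn q.2 : ℤ) - nn q.1) (Y (rr q.2)) i ≠ 0
    · obtain ⟨q, hq, hne⟩ := h
      have hsupp : ∀ q ∈ B.sigma (fun j => Finset.range j),
          VV ((nn q.2 : ℤ) - nn q.1) (Y (rr q.2)) i ≠ 0 →
          (i.2 - ((nn q.2 : ℤ) - nn q.1)).natAbs ≤ q.2 := by
        intro q hq hne
        rw [VV_apply] at hne
        exact (hY.supp _ _ (right_ne_zero_of_mul hne)).trans (rr_le _)
      rw [Finset.sum_eq_single_of_mem q hq]
      · rw [Finset.mem_sigma, Finset.mem_range] at hq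
        have h2 := nn_gap hq.2
        have h3 : ((nn q.2 : ℤ) - nn q.1) = -((nn q.1 - nn q.2 : ℕ) : ℤ) := by omega
        rw [h3]
        refine (boundA hY _ _ _).trans ?_
        have h4 := Finset.mem_Ico.1 hq.1
        have h5 : q.1 + 1 < 2 ^ (r + 1) := by omega
        have h6 : rr q.2 ≤ r := by
          have a1 : rr q.2 ≤ rr q.1 := rr_mono hq.2.le
          have a2 : rr q.1 < r + 1 := Nat.log_lt_of_lt_pow (by omega) h5
          omega
        have h7 : H (rr q.2 + (nn q.1 - nn q.2)) ≤ r + 4 :=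
          (H_mono (by omega)).trans (H_bound h5)
        unfold CC
        have h8 : ((rr q.2 : ℕ) : ℝ) ≤ r := by exact_mod_cast h6
        have h9 : ((H (rr q.2 + (nn q.1 - nn q.2)) : ℕ) : ℝ) ≤ (r : ℝ) + 4 := by
          exact_mod_cast h7
        gcongr
      · intro q' hq' hqq
        by_contra h4
        have h5 := hsupp q' hq' (norm_ne_zero_iff.1 h4)
        have h6 := hsupp q hq hne
        rw [Finset.mem_sigma, Finset.mem_range] at hq hq'
        have h7 := sep hq'.2 hq.2 h5 h6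
        exact hqq (Sigma.ext h7.1 (heq_of_eq h7.2))
    · push Not at h
      rw [Finset.sum_eq_zero]
      · exact hC
      · intro q hq
        rw [h q hq, norm_zero]
  refine le_trans ?_ h1
  rw [Finset.sum_sigma]
  apply Finset.sum_le_sum
  intro j _
  unfold uu
  rw [map_sum]
  exact norm_sum_le _ _

/-- approximation in the weak sense along a block -/
theorem approx (hY : Good Y) (r : ℕ) (s : Finset (C₀(ℕ × ℤ, 𝕂) →L[𝕂] 𝕂)) {ε : ℝ}
    (h1 : ∀ f ∈ s, (1 / 2) ^ r * ‖f‖ < ε / 2)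
    (h2 : CC r * ∑ f ∈ s, ‖f‖ < 2 ^ r * (ε / 2)) :
    ∃ j, ∀ f ∈ s, ‖f ((T 𝕂 ^ (nn j)) (xx Y)) - f (ofFin (Y r))‖ < ε := by
  by_contra hcon
  push Not at hcon
  have hpow : 2 ^ (r + 1) = 2 * 2 ^ r := by ring
  have hp1 : 1 ≤ 2 ^ r := Nat.one_le_two_pow
  have h3 : ∀ j ∈ Finset.Ico (2 ^ r - 1) (2 ^ (r + 1) - 1), ε / 2 ≤ ∑ f ∈ s, ‖f (uu Y j)‖ := by
    intro j hj
    rw [Finset.mem_Ico] at hj
    obtain ⟨f, hf, hfe⟩ := hcon j
    have hrj : rr j = r := by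
      unfold rr
      exact (Nat.log_eq_iff (Or.inr ⟨by norm_num, by omega⟩)).2 ⟨by omega, by omega⟩
    have h4 := err hY j
    rw [hrj] at h4
    have h5 : f ((T 𝕂 ^ (nn j)) (xx Y)) - f (ofFin (Y r)) =
        f (uu Y j) + f ((T 𝕂 ^ (nn j)) (xx Y) - ofFin (Y r) - uu Y j) := by
      rw [map_sub, map_sub]
      ring
    have hjr : r ≤ j := by
      have : r < 2 ^ r := Nat.lt_pow_self (by norm_num)
      omega
    have h6 : ‖f ((T 𝕂 ^ (nn j)) (xx Y) - ofFin (Y r) - uu Y j)‖ ≤ (1 / 2) ^ r * ‖f‖ := by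
      refine (f.le_opNorm _).trans ?_
      rw [mul_comm]
      have : (1 / 2 : ℝ) ^ j ≤ (1 / 2) ^ r :=
        pow_le_pow_of_le_one (by norm_num) (by norm_num) hjr
      gcongr
      exact h4.trans this
    have h7 : ε ≤ ‖f (uu Y j)‖ + ‖f ((T 𝕂 ^ (nn j)) (xx Y) - ofFin (Y r) - uu Y j)‖ := by
      rw [h5] at hfe
      exact hfe.trans (norm_add_le _ _)
    have h8 := h1 f hf
    have h9 : ‖f (uu Y j)‖ ≤ ∑ f ∈ s, ‖f (uu Y j)‖ :=
      Finset.single_le_sum (f := fun f : C₀(ℕ × ℤ, 𝕂) →L[𝕂] 𝕂 => ‖f (uu Y j)‖)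
        (fun _ _ => norm_nonneg _) hf
    linarith
  have h4 := Finset.sum_le_sum h3
  rw [Finset.sum_const, Nat.card_Ico, nsmul_eq_mul, Finset.sum_comm] at h4
  have h5 : ∑ f ∈ s, ∑ j ∈ Finset.Ico (2 ^ r - 1) (2 ^ (r + 1) - 1), ‖f (uu Y j)‖ ≤
      ∑ f ∈ s, CC r * ‖f‖ := Finset.sum_le_sum fun f _ => sum_uu hY r f
  rw [← Finset.mul_sum] at h5
  have h6 : ((2 ^ (r + 1) - 1 - (2 ^ r - 1) : ℕ) : ℝ) = 2 ^ r := by
    have : 2 ^ (r + 1) - 1 - (2 ^ r - 1) = 2 ^ r := by omega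
    rw [this]
    push_cast
    rfl
  rw [h6] at h4
  linarith

/-- the conditions are satisfied for large indices -/
theorem eventually_good (y : (ℕ × ℤ) →₀ 𝕂) : ∃ R : ℕ, ∀ r, R ≤ r →
    (∀ i, y i ≠ 0 → i.2.natAbs ≤ r) ∧
      ∀ i, Real.exp (i.2.natAbs : ℝ) * ‖y i‖ ≤ (r : ℝ) + 1 := by
  classical
  obtain ⟨K, hK⟩ : ∃ K : ℕ, ∑ i ∈ y.support, Real.exp (i.2.natAbs : ℝ) * ‖y i‖ ≤ K :=
    exists_nat_ge _
  refine ⟨max K (y.support.sup fun i => i.2.natAbs), fun r hr => ⟨fun i hi => ?_, fun i => ?_⟩⟩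
  · have h1 : i.2.natAbs ≤ y.support.sup fun i => i.2.natAbs :=
      Finset.le_sup (f := fun i : ℕ × ℤ => i.2.natAbs) (Finsupp.mem_support_iff.2 hi)
    exact h1.trans ((le_max_right _ _).trans hr)
  · rcases eq_or_ne (y i) 0 with h0 | h0
    · rw [h0, norm_zero, mul_zero]
      positivity
    · have h1 : Real.exp (i.2.natAbs : ℝ) * ‖y i‖ ≤
          ∑ i ∈ y.support, Real.exp (i.2.natAbs : ℝ) * ‖y i‖ :=
        Finset.single_le_sum (f := fun i : ℕ × ℤ => Real.exp (i.2.natAbs : ℝ) * ‖y i‖)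
          (fun _ _ => by positivity) (Finsupp.mem_support_iff.2 h0)
      have h2 : (K : ℝ) ≤ r := by exact_mod_cast (le_max_left _ _).trans hr
      linarith

theorem T_weak : WeaklyHypercyclic 𝕂 (T 𝕂) := by
  classical
  obtain ⟨e, he⟩ := exists_surjective_nat ((ℕ × ℤ) →₀ ℕ)
  set D : ℕ → ((ℕ × ℤ) →₀ 𝕂) := fun r => cc 𝕂 (e (Nat.unpair r).1) with hD
  set Y : ℕ → ((ℕ × ℤ) →₀ 𝕂) := fun r =>
    if (∀ i, D r i ≠ 0 → i.2.natAbs ≤ r) ∧
      (∀ i, Real.exp (i.2.natAbs : ℝ) * ‖D r i‖ ≤ (r : ℝ) + 1) then D r else 0 with hYdef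
  have hY : Good Y := by
    constructor
    · intro r i h
      simp only [hYdef] at h
      split_ifs at h with h1
      · exact h1.1 i h
      · exact absurd rfl h
    · intro r i
      simp only [hYdef]
      split_ifs with h1
      · exact h1.2 i
      · rw [Finsupp.zero_apply, norm_zero, mul_zero]
        positivity
  refine ⟨xx Y, Pool.Agent.R299.WS.dense_weak cc_dense ?_⟩
  rintro _ ⟨ψ, rfl⟩ s ε hε
  obtain ⟨i, hi⟩ := he ψ
  obtain ⟨R0, hR0⟩ := eventually_good (cc 𝕂 ψ)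
  have h1 : ∀ᶠ r : ℕ in atTop, ∀ f ∈ s, (1 / 2 : ℝ) ^ r * ‖f‖ < ε / 2 := by
    rw [Filter.eventually_all_finset]
    intro f _
    have : Tendsto (fun r : ℕ => (1 / 2 : ℝ) ^ r * ‖f‖) atTop (𝓝 (0 * ‖f‖)) :=
      (tendsto_pow_atTop_nhds_zero_of_lt_one (by norm_num) (by norm_num)).mul_const _
    rw [zero_mul] at this
    exact this.eventually (gt_mem_nhds (half_pos hε))
  have h2 : ∀ᶠ r : ℕ in atTop, CC r * ∑ f ∈ s, ‖f‖ < 2 ^ r * (ε / 2) := by
    have h3 : Tendsto (fun r : ℕ => CC r / 2 ^ r * ∑ f ∈ s, ‖f‖) atTop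
        (𝓝 (0 * ∑ f ∈ s, ‖f‖)) := by
      apply Tendsto.mul_const
      have a1 := tendsto_pow_const_div_const_pow_of_one_lt 2 (r := (2 : ℝ)) (by norm_num)
      have a2 := tendsto_pow_const_div_const_pow_of_one_lt 1 (r := (2 : ℝ)) (by norm_num)
      have a3 := tendsto_pow_const_div_const_pow_of_one_lt 0 (r := (2 : ℝ)) (by norm_num)
      have a4 := (a1.add (a2.const_mul 5)).add (a3.const_mul 4)
      simp only [mul_zero, add_zero] at a4
      refine a4.congr fun r => ?_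
      unfold CC
      ring
    rw [zero_mul] at h3
    filter_upwards [h3.eventually (gt_mem_nhds (half_pos hε))] with r hr
    have : (0 : ℝ) < 2 ^ r := by positivity
    rw [div_mul_eq_mul_div, div_lt_iff₀ this] at hr
    linarith
  obtain ⟨R, hR⟩ := (h1.and h2).exists_forall_of_atTop
  set r := Nat.pair i (max R R0) with hr
  have hrR : R ≤ r := (le_max_left _ _).trans (Nat.right_le_pair _ _)
  have hrR0 : R0 ≤ r := (le_max_right _ _).trans (Nat.right_le_pair _ _)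
  obtain ⟨hR1, hR2⟩ := hR r hrR
  have hDr : D r = cc 𝕂 ψ := by
    simp only [hD, hr, Nat.unpair_pair, hi]
  have hYr : Y r = cc 𝕂 ψ := by
    simp only [hYdef]
    rw [hDr, if_pos (hR0 r hrR0)]
  obtain ⟨j, hj⟩ := approx hY r s hR1 hR2
  rw [hYr] at hj
  exact ⟨_, mem_range_self (nn j), hj⟩

end Pool.Agent.U515.WH
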